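import Pool.Agent.Helper61.Tri.Goals2

/-! Packet SMALLG2E of MP_5b3c48 (helper61). -/

set_option autoImplicit false

open Finset Pool.Agent.Helper61.Tri

namespace Pool.Agent.Helper86.Tri

open scoped Classical in
theorem smallg2_of (ht : EPTools) (kst : KST) (peel : Peel) (ng : NoG2Grid) (κ : Kind)
    (hκ : κ = Kind.P ∨ κ = Kind.Ce) : SmallG2 κ := by
  intro s hs β hβ
  set C : ℝ := 12 * (s : ℝ) + 40 with hC
  have hCpos : 0 < C := by positivity
  obtain ⟨N, hN⟩ := ng s hs
  obtain ⟨β', hβ', n0, hn0⟩ := kst N (β / C) (by positivity)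
  refine ⟨max n0 ⌈(N : ℝ) / β'⌉₊, ?_⟩
  intro V _ hV G hG
  have hV1 : n0 ≤ Fintype.card V := le_trans (le_max_left _ _) hV
  have hV2 : (N : ℝ) ≤ β' * (Fintype.card V : ℝ) := by
    have h1 : (N : ℝ) / β' ≤ (⌈(N : ℝ) / β'⌉₊ : ℝ) := Nat.le_ceil _
    have h2 : ((⌈(N : ℝ) / β'⌉₊ : ℕ) : ℝ) ≤ (Fintype.card V : ℝ) := by
      exact_mod_cast le_trans (le_max_right _ _) hV
    rw [div_le_iff₀ hβ'] at h1
    nlinarith
  have hle : G2 G s ≤ G := fun u v h => h.1
  by_cases hbig : β / C * (Fintype.card V : ℝ) ^ 2 ≤ ((oe (G2 G s)).card : ℝ)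
  · exfalso
    obtain ⟨x, W, hx, hW, hR⟩ := hn0 V hV1 (G2 G s).Adj hbig
    have hWN : N ≤ W.card := by
      have : (N : ℝ) ≤ (W.card : ℝ) := hV2.trans hW
      exact_mod_cast this
    obtain ⟨W', hW', hcard⟩ := Finset.exists_subset_card_eq hWN
    let e : Fin N ≃ W' := (Fintype.equivFinOfCardEq (by simp [hcard])).symm
    set w : ℕ → V := fun j => if h : j < N then ((e ⟨j, h⟩ : W') : V) else x 0 with hw
    have hwW : ∀ j < N, w j ∈ W := by
      intro j hj
      simp only [hw, hj, dif_pos]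
      exact hW' (e ⟨j, hj⟩).2
    have hgrid : Grid G N x w := by
      refine ⟨?_, hx, ?_⟩
      · intro i hi j hj
        exact (hR i hi (w j) (hwW j hj)).1
      · intro i hi j hj hij
        simp only [hw, hi, hj, dif_pos] at hij
        have h1 := e.injective (Subtype.ext hij)
        simpa using h1
    have hboth := hN V G x w hgrid (fun i hi j hj => (hR i hi (w j) (hwW j hj)).2)
    rcases hκ with rfl | rfl
    · exact hG hboth.1
    · exact hG hboth.2
  · push Not at hbig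
    have hno : ¬ Has κ s (G2 G s) := fun h => hG (ht.hasMono κ s hle h)
    have h1 := peel s (by omega) κ V (G2 G s) hno
    have h2 : ((ot (G2 G s)).card : ℝ) ≤ C * ((oe (G2 G s)).card : ℝ) := by
      rw [hC]
      exact_mod_cast h1
    have h3 : C * ((oe (G2 G s)).card : ℝ) ≤ C * (β / C * (Fintype.card V : ℝ) ^ 2) :=
      mul_le_mul_of_nonneg_left hbig.le hCpos.le
    have h4 : C * (β / C * (Fintype.card V : ℝ) ^ 2) = β * (Fintype.card V : ℝ) ^ 2 := by
      field_simp
    linarith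

theorem smallg2e : EPTools → KST → Peel → NoG2Grid → (SmallG2 Kind.P ∧ SmallG2 Kind.Ce) :=
  fun ht kst peel ng => ⟨smallg2_of ht kst peel ng _ (Or.inl rfl),
    smallg2_of ht kst peel ng _ (Or.inr rfl)⟩

end Pool.Agent.Helper86.Tri
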