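import Pool.Agent.Helper61.Tri.Goals2

/-! Packet BIP of MP_5b3c48 (helper61). -/

set_option autoImplicit false

open Finset Pool.Agent.Helper61.Tri

namespace Pool.Agent.Helper86.Tri

open scoped Classical in
theorem bip_core (V : Type) [Fintype V] (J : SimpleGraph V) (hTF : TF J) (z : V)
    (hz : ∀ v, (nb J v).card ≤ (nb J z).card) :
    ∃ X Y : ℕ, (oe J).card = 2 * X + Y ∧
      X + Y ≤ (nb J z).card * ((nb J z)ᶜ).card ∧
      (univ.filter fun p : V × V => p.1 ∈ nb J z ∧ p.2 ∉ nb J z ∧ ¬ J.Adj p.1 p.2).card + X =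
        (nb J z).card * ((nb J z)ᶜ).card ∧
      (univ.filter fun p : V × V => J.Adj p.1 p.2 ∧ (p.1 ∈ nb J z ↔ p.2 ∈ nb J z)).card = Y := by
  set A : Finset V := nb J z with hA
  have hAmem : ∀ u, u ∈ A ↔ J.Adj z u := fun u => by simp [hA, nb]
  have hAA : ∀ u v, u ∈ A → v ∈ A → ¬ J.Adj u v := by
    intro u v hu hv
    exact hTF z u v ((hAmem u).1 hu) ((hAmem v).1 hv)
  set SX : Finset (V × V) := univ.filter fun p : V × V => p.1 ∈ A ∧ p.2 ∉ A ∧ J.Adj p.1 p.2
    with hSX
  set SX' : Finset (V × V) := univ.filter fun p : V × V => p.1 ∉ A ∧ p.2 ∈ A ∧ J.Adj p.1 p.2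
    with hSX'
  set SY : Finset (V × V) := univ.filter fun p : V × V => p.1 ∉ A ∧ p.2 ∉ A ∧ J.Adj p.1 p.2
    with hSY
  have hXX' : SX'.card = SX.card := by
    refine Finset.card_bij (fun p _ => (p.2, p.1)) ?_ ?_ ?_
    · rintro ⟨u, v⟩ h
      simp only [hSX', Finset.mem_filter, Finset.mem_univ, true_and] at h
      simp only [hSX, Finset.mem_filter, Finset.mem_univ, true_and]
      exact ⟨h.2.1, h.1, h.2.2.symm⟩
    · rintro ⟨u, v⟩ _ ⟨u', v'⟩ _ h
      simp only [Prod.mk.injEq] at h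
      rw [h.1, h.2]
    · rintro ⟨u, v⟩ h
      simp only [hSX, Finset.mem_filter, Finset.mem_univ, true_and] at h
      refine ⟨(v, u), ?_, rfl⟩
      simp only [hSX', Finset.mem_filter, Finset.mem_univ, true_and]
      exact ⟨h.2.1, h.1, h.2.2.symm⟩
  refine ⟨SX.card, SY.card, ?_, ?_, ?_, ?_⟩
  · -- all edges
    have h1 : oe J = SX ∪ (SX' ∪ SY) := by
      ext ⟨u, v⟩
      simp only [oe, hSX, hSX', hSY, Finset.mem_filter, Finset.mem_univ, true_and,
        Finset.mem_union]
      constructor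
      · intro h
        by_cases hu : u ∈ A
        · by_cases hv : v ∈ A
          · exact absurd h (hAA u v hu hv)
          · exact Or.inl ⟨hu, hv, h⟩
        · by_cases hv : v ∈ A
          · exact Or.inr (Or.inl ⟨hu, hv, h⟩)
          · exact Or.inr (Or.inr ⟨hu, hv, h⟩)
      · rintro (h | h | h)
        · exact h.2.2
        · exact h.2.2
        · exact h.2.2
    have d1 : Disjoint SX (SX' ∪ SY) := by
      rw [Finset.disjoint_left]
      rintro ⟨u, v⟩ h h'
      simp only [hSX, hSX', hSY, Finset.mem_filter, Finset.mem_univ, true_and,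
        Finset.mem_union] at h h'
      rcases h' with h' | h'
      · exact h'.1 h.1
      · exact h'.1 h.1
    have d2 : Disjoint SX' SY := by
      rw [Finset.disjoint_left]
      rintro ⟨u, v⟩ h h'
      simp only [hSX', hSY, Finset.mem_filter, Finset.mem_univ, true_and] at h h'
      exact h'.2.1 h.2.1
    rw [h1, Finset.card_union_of_disjoint d1, Finset.card_union_of_disjoint d2, hXX']
    ring
  · -- degrees
    have d2 : Disjoint SX' SY := by
      rw [Finset.disjoint_left]
      rintro ⟨u, v⟩ h h'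
      simp only [hSX', hSY, Finset.mem_filter, Finset.mem_univ, true_and] at h h'
      exact h'.2.1 h.2.1
    rw [← hXX', ← Finset.card_union_of_disjoint d2]
    refine Finset.card_le_mul_card_image_of_maps_to (f := Prod.fst) ?_ _ ?_
    · rintro ⟨u, v⟩ h
      simp only [hSX', hSY, Finset.mem_filter, Finset.mem_univ, true_and,
        Finset.mem_union] at h
      rw [Finset.mem_compl]
      rcases h with h | h
      · exact h.1
      · exact h.1
    · intro b _
      refine le_trans ?_ (hz b)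
      refine Finset.card_le_card_of_injOn Prod.snd ?_ ?_
      · rintro ⟨u, v⟩ h
        simp only [Finset.coe_filter, Set.mem_ofPred_eq, hSX', hSY, Finset.mem_filter,
          Finset.mem_univ, true_and, Finset.mem_union] at h
        obtain ⟨h, rfl⟩ := h
        simp only [nb, Finset.coe_filter, Finset.mem_univ, true_and, Set.mem_ofPred_eq]
        rcases h with h | h
        · exact h.2.2
        · exact h.2.2
      · rintro ⟨u, v⟩ h ⟨u', v'⟩ h' hvv
        simp only [Finset.coe_filter, Set.mem_ofPred_eq] at h h'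
        have e1 : u = b := h.2
        have e2 : u' = b := h'.2
        have e3 : v = v' := hvv
        rw [e1, e2, e3]
  · -- non adjacent pairs
    have h1 : (univ.filter fun p : V × V => p.1 ∈ A ∧ p.2 ∉ A ∧ ¬ J.Adj p.1 p.2) =
        (A ×ˢ Aᶜ).filter fun p : V × V => ¬ J.Adj p.1 p.2 := by
      ext ⟨u, v⟩
      simp only [Finset.mem_filter, Finset.mem_univ, true_and, Finset.mem_product,
        Finset.mem_compl, and_assoc]
    have h2 : SX = (A ×ˢ Aᶜ).filter fun p : V × V => J.Adj p.1 p.2 := by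
      ext ⟨u, v⟩
      simp only [hSX, Finset.mem_filter, Finset.mem_univ, true_and, Finset.mem_product,
        Finset.mem_compl, and_assoc]
    rw [h1, h2, add_comm, Finset.card_filter_add_card_filter_not, Finset.card_product]
  · congr 1
    ext ⟨u, v⟩
    simp only [hSY, Finset.mem_filter, Finset.mem_univ, true_and]
    constructor
    · rintro ⟨h, h'⟩
      have hu : u ∉ A := fun hu => hAA u v hu (h'.1 hu) h
      exact ⟨hu, fun hv => hu (h'.2 hv), h⟩
    · rintro ⟨h1, h2, h3⟩
      exact ⟨h3, fun h => absurd h h1, fun h => absurd h h2⟩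

theorem bip : TFmax → Bip := by
  classical
  intro _ V _ J ε hε hTF hd
  rcases isEmpty_or_nonempty V with hV | hV
  · refine ⟨∅, ?_, ?_, ?_, ?_⟩
    · have : (Fintype.card V : ℝ) = 0 := by simp
      rw [this]
      simp
    · have : (Fintype.card V : ℝ) = 0 := by simp
      rw [this]
      simp
    · simp
    · simp
  obtain ⟨z, -, hz⟩ := Finset.exists_max_image (univ : Finset V) (fun v => (nb J v).card)
    Finset.univ_nonempty
  have hz' : ∀ v, (nb J v).card ≤ (nb J z).card := fun v => hz v (Finset.mem_univ v)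
  obtain ⟨X, Y, h1, h2, h3, h4⟩ := bip_core V J hTF z hz'
  set n : ℝ := (Fintype.card V : ℝ) with hn
  set a : ℝ := ((nb J z).card : ℝ) with ha
  set b : ℝ := (((nb J z)ᶜ).card : ℝ) with hb
  have hab : a + b = n := by
    rw [ha, hb, hn]
    have := Finset.card_add_card_compl (nb J z)
    exact_mod_cast this
  have ha0 : 0 ≤ a := Nat.cast_nonneg _
  have hb0 : 0 ≤ b := Nat.cast_nonneg _
  have hn0 : 0 ≤ n := Nat.cast_nonneg _
  have r1 : ((oe J).card : ℝ) = 2 * (X : ℝ) + (Y : ℝ) := by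
    rw [h1]; push_cast; ring
  have r2 : (X : ℝ) + (Y : ℝ) ≤ a * b := by
    rw [ha, hb]
    exact_mod_cast h2
  have r3 : ((univ.filter fun p : V × V => p.1 ∈ nb J z ∧ p.2 ∉ nb J z ∧
      ¬ J.Adj p.1 p.2).card : ℝ) + (X : ℝ) = a * b := by
    rw [ha, hb]
    exact_mod_cast h3
  have r4 : ((univ.filter fun p : V × V => J.Adj p.1 p.2 ∧
      (p.1 ∈ nb J z ↔ p.2 ∈ nb J z)).card : ℝ) = (Y : ℝ) := by
    exact_mod_cast h4
  have hX0 : (0:ℝ) ≤ X := Nat.cast_nonneg _
  have hY0 : (0:ℝ) ≤ Y := Nat.cast_nonneg _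
  rw [r1] at hd
  have hsq : 4 * (a * b) ≤ n ^ 2 := by
    rw [← hab]
    nlinarith [sq_nonneg (a - b)]
  have hdiff : (a - b) ^ 2 ≤ 2 * ε * n ^ 2 := by
    have : (a - b) ^ 2 = n ^ 2 - 4 * (a * b) := by rw [← hab]; ring
    rw [this]
    nlinarith
  have hroot : |a - b| ≤ 2 * (Real.sqrt ε * n) := by
    have h5 : (a - b) ^ 2 ≤ (2 * (Real.sqrt ε * n)) ^ 2 := by
      have : (2 * (Real.sqrt ε * n)) ^ 2 = 4 * (Real.sqrt ε ^ 2) * n ^ 2 := by ring
      rw [this, Real.sq_sqrt hε]
      nlinarith [mul_nonneg hε (sq_nonneg n)]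
    have h6 : 0 ≤ 2 * (Real.sqrt ε * n) := by positivity
    exact abs_le_of_sq_le_sq h5 h6
  have hroot' := abs_le.1 hroot
  refine ⟨nb J z, ?_, ?_, ?_, ?_⟩
  · have e : ((univ.filter fun p : V × V => p.1 ∈ nb J z ∧ p.2 ∉ nb J z ∧
      ¬ J.Adj p.1 p.2).card : ℝ) ≤ ε * n ^ 2 := by nlinarith
    convert e using 3
  · have e : ((univ.filter fun p : V × V => J.Adj p.1 p.2 ∧
      (p.1 ∈ nb J z ↔ p.2 ∈ nb J z)).card : ℝ) ≤ ε * n ^ 2 := by
      rw [r4]; nlinarith
    convert e using 3
  · have : a ≤ (1 / 2 + Real.sqrt ε) * n := by linarith [hroot'.2]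
    exact this
  · have : b ≤ (1 / 2 + Real.sqrt ε) * n := by linarith [hroot'.1]
    convert this using 3

end Pool.Agent.Helper86.Tri
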